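import Pool.Agent.StubbornGap.Key

/-!
Nonnegative polynomials taking the same value at two points of the upper half plane:
some odd power is a sum of squares of such polynomials, unless the polynomial is the
square of a real-rooted polynomial taking opposite values.
-/

namespace Pool.Agent.StubbornGap

open Polynomial

noncomputable section

theorem affine_nonstubborn {a b : ℂ} (ha : 0 < a.im) (hb : 0 < b.im) (hab : a ≠ b)
    {f : ℝ[X]} (hf : Psd f) (hfab : aeval a f = aeval b f)
    (hreal : ∀ (c : ℝ) (S : Multiset ℝ), c ≠ 0 →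
      f = (C c * (S.map fun r => X - C r).prod) ^ 2 →
      aeval a (C c * (S.map fun r => X - C r).prod) ≠
        - aeval b (C c * (S.map fun r => X - C r).prod)) :
    ∃ m : ℕ, Odd m ∧ ∃ g : Fin 3 → ℝ[X], (∀ i, aeval a (g i) = aeval b (g i)) ∧
      f ^ m = ∑ i, g i ^ 2 := by
  by_cases h0 : f = 0
  · refine ⟨1, odd_one, fun _ => 0, ?_, ?_⟩
    · intro i; simp
    · simp [h0]
  by_cases hw : aeval a f = 0
  · obtain ⟨s1, s2, hs⟩ := psd_sum_two_sq f hf
    have hwb : aeval b f = 0 := hfab ▸ hw
    refine ⟨3, by decide, ![f * s1, f * s2, 0], ?_, ?_⟩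
    · intro i
      fin_cases i <;> simp [hw, hwb]
    · rw [Fin.sum_univ_three]
      simp only [Matrix.cons_val_zero, Matrix.cons_val_one, Matrix.cons_val]
      calc f ^ 3 = f ^ 2 * f := by ring
        _ = f ^ 2 * (s1 ^ 2 + s2 ^ 2) := by rw [← hs]
        _ = _ := by ring
  by_cases hroot : ∃ z : ℂ, aeval z f = 0 ∧ z.im ≠ 0
  · obtain ⟨z, hz, hzim, hzneg⟩ : ∃ z : ℂ, aeval z f = 0 ∧ z.im ≠ 0 ∧ z.im < 0 := by
      obtain ⟨z, hz, hzim⟩ := hroot
      rcases lt_or_gt_of_ne hzim with h | h
      · exact ⟨z, hz, hzim, h⟩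
      · refine ⟨(starRingEnd ℂ) z, ?_, ?_, ?_⟩
        · rw [aeval_conj, hz, map_zero]
        · simpa using hzim
        · simpa using h
    obtain ⟨f1, hf1⟩ := quad_dvd hz hzim
    have hf1p : Psd f1 := by
      rw [hf1] at hf
      exact Psd.mul_left_cancel (quad_eval_pos hzim) hf
    obtain ⟨g1, g2, hg⟩ := psd_sum_two_sq f1 hf1p
    obtain ⟨k, c, hc1, hc2, hc3⟩ := key_interpolation ha hb hab hzneg hf1 hg hfab hw
    set F := f ^ (2 * k + 1) with hF
    have hFa : aeval a (F - c ^ 2) = 0 := by
      rw [map_sub, map_pow, map_pow, hc2, sub_self]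
    have hFb : aeval b (F - c ^ 2) = 0 := by
      rw [map_sub, map_pow, map_pow, ← hc1, ← hfab, hc2, sub_self]
    have hFab : aeval a F = aeval b F := by rw [hF, map_pow, map_pow, hfab]
    have h4 : Psd (4 * F - c ^ 2) := by
      intro t
      have := hc3 t
      rw [← eval_pow] at this
      simp only [eval_sub, eval_mul, eval_pow, eval_ofNat, hF] at this ⊢
      linarith
    obtain ⟨s1, s2, hs⟩ := psd_sum_two_sq _ h4
    have hhalf : (C (1 / 2 : ℝ) : ℝ[X]) ^ 2 * 4 = 1 := by
      rw [← C_pow, show (4 : ℝ[X]) = C (4 : ℝ) from (map_ofNat C 4).symm, ← C_mul]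
      norm_num
    refine ⟨(2 * k + 1) * 3, ?_, ![C (1 / 2 : ℝ) * (c * (3 * F - c ^ 2)),
      C (1 / 2 : ℝ) * ((F - c ^ 2) * s1), C (1 / 2 : ℝ) * ((F - c ^ 2) * s2)], ?_, ?_⟩
    · exact (odd_two_mul_add_one k).mul (by decide)
    · intro i
      fin_cases i
      · simp only [Fin.zero_eta, Matrix.cons_val_zero, map_mul, map_sub, map_pow, hc1, hFab,
          aeval_C, map_ofNat]
      · change aeval a (C (1 / 2 : ℝ) * ((F - c ^ 2) * s1)) =
          aeval b (C (1 / 2 : ℝ) * ((F - c ^ 2) * s1))
        rw [map_mul, map_mul, map_mul, map_mul, hFa, hFb]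
        ring
      · change aeval a (C (1 / 2 : ℝ) * ((F - c ^ 2) * s2)) =
          aeval b (C (1 / 2 : ℝ) * ((F - c ^ 2) * s2))
        rw [map_mul, map_mul, map_mul, map_mul, hFa, hFb]
        ring
    · rw [Fin.sum_univ_three]
      simp only [Matrix.cons_val_zero, Matrix.cons_val_one, Matrix.cons_val]
      rw [pow_mul, ← hF]
      have e : C (1 / 2 : ℝ) ^ 2 * ((F - c ^ 2) ^ 2 * (s1 ^ 2 + s2 ^ 2)) =
          C (1 / 2 : ℝ) ^ 2 * ((F - c ^ 2) ^ 2 * (4 * F - c ^ 2)) := by rw [hs]
      linear_combination (-e) + (-F ^ 3) * hhalf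
  · push Not at hroot
    obtain ⟨c, S, hc, hS⟩ := psd_real_rooted f hf h0 hroot
    have hne := hreal c S hc hS
    set h := C c * (S.map fun r => X - C r).prod with hh
    have hsq : (aeval a h) ^ 2 = (aeval b h) ^ 2 := by
      rw [← map_pow, ← map_pow, ← hS, hfab]
    have heq : aeval a h = aeval b h := by
      rcases sq_eq_sq_iff_eq_or_eq_neg.mp hsq with h1 | h1
      · exact h1
      · exact absurd h1 hne
    refine ⟨1, odd_one, ![h, 0, 0], ?_, ?_⟩
    · intro i
      fin_cases i <;> simp [heq]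
    · rw [Fin.sum_univ_three]
      simp [hS]

/-- real-rooted polynomials of bounded degree cannot take opposite values at close points -/
lemma real_rooted_not_opposite {a b : ℂ} (hb : 0 < b.im) {ε : ℝ} (hε : ‖a - b‖ ≤ ε * b.im)
    (hε0 : 0 ≤ ε) {K : ℕ} (hK : (K : ℝ) * ε ≤ 1) (c : ℝ) (S : Multiset ℝ) (hc : c ≠ 0)
    (hS : Multiset.card S ≤ K) :
    aeval a (C c * (S.map fun r => X - C r).prod) ≠
      - aeval b (C c * (S.map fun r => X - C r).prod) := by
  have hbr : ∀ r : ℝ, b - r ≠ 0 := by
    intro r h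
    have := congrArg Complex.im h
    simp at this
    linarith
  have key : ∀ T : Multiset ℝ,
      ‖(T.map fun r : ℝ => (a - r) / (b - r)).prod - 1‖ ≤ (1 + ε) ^ (Multiset.card T) - 1 := by
    intro T
    induction T using Multiset.induction_on with
    | empty => simp
    | cons r T ih =>
      rw [Multiset.map_cons, Multiset.prod_cons, Multiset.card_cons]
      set P := (T.map fun r : ℝ => (a - r) / (b - r)).prod
      have h1 : (a - r) / (b - r) = 1 + (a - b) / (b - r) := by
        field_simp [hbr r]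
        ring
      have h2 : ‖(a - b) / (b - r)‖ ≤ ε := by
        rw [norm_div, div_le_iff₀ (norm_pos_iff.mpr (hbr r))]
        refine hε.trans ?_
        have : b.im ≤ ‖b - r‖ := by
          have := Complex.abs_im_le_norm (b - r)
          simp only [Complex.sub_im, Complex.ofReal_im, sub_zero] at this
          exact (le_abs_self _).trans this
        exact mul_le_mul_of_nonneg_left this hε0
      rw [h1]
      have h3 : (1 + (a - b) / (b - r)) * P - 1 = (P - 1) + (a - b) / (b - r) * (P - 1) +
          (a - b) / (b - r) := by ring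
      rw [h3]
      calc ‖(P - 1) + (a - b) / (b - r) * (P - 1) + (a - b) / (b - r)‖
          ≤ ‖P - 1‖ + ‖(a - b) / (b - r)‖ * ‖P - 1‖ + ‖(a - b) / (b - r)‖ := by
            refine (norm_add_le _ _).trans ?_
            gcongr
            refine (norm_add_le _ _).trans ?_
            rw [norm_mul]
        _ ≤ ((1 + ε) ^ (Multiset.card T) - 1) + ε * ((1 + ε) ^ (Multiset.card T) - 1) + ε := by
            gcongr
        _ = (1 + ε) ^ (Multiset.card T + 1) - 1 := by ring
  have hlt : ‖(S.map fun r : ℝ => (a - r) / (b - r)).prod - 1‖ < 2 := by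
    refine (key S).trans_lt ?_
    have h1 : (1 + ε) ^ (Multiset.card S) ≤ (1 + ε) ^ K := by
      apply pow_le_pow_right₀ (by linarith) hS
    have h2 : (1 + ε) ^ K ≤ Real.exp (K * ε) := by
      rw [mul_comm, Real.exp_mul, Real.rpow_natCast]
      apply pow_le_pow_left₀ (by linarith)
      linarith [Real.add_one_le_exp ε]
    have h3 : Real.exp (K * ε) ≤ Real.exp 1 := Real.exp_le_exp.mpr hK
    have h4 := Real.exp_one_lt_d9
    linarith
  have hev : ∀ x : ℂ, aeval x (C c * (S.map fun r => X - C r).prod) =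
      c * (S.map fun r : ℝ => x - r).prod := by
    intro x
    rw [map_mul, aeval_C, map_multiset_prod, Multiset.map_map]
    simp only [Complex.coe_algebraMap]
    congr 2
    apply Multiset.map_congr rfl
    intro r _
    simp
  intro heq
  rw [hev, hev] at heq
  have hc' : (c : ℂ) ≠ 0 := by exact_mod_cast hc
  have heq2 : (S.map fun r : ℝ => a - r).prod = - (S.map fun r : ℝ => b - r).prod := by
    apply mul_left_cancel₀ hc'
    rw [heq]; ring
  have hprod : (S.map fun r : ℝ => (a - r) / (b - r)).prod =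
      (S.map fun r : ℝ => a - r).prod / (S.map fun r : ℝ => b - r).prod := by
    rw [← Multiset.prod_map_div]
  have hne : (S.map fun r : ℝ => b - r).prod ≠ 0 := by
    intro h
    rw [Multiset.prod_eq_zero_iff, Multiset.mem_map] at h
    obtain ⟨r, _, hr⟩ := h
    exact hbr r hr
  rw [hprod, heq2, neg_div, div_self hne] at hlt
  norm_num at hlt

/-- degree bound in a sum of squares -/
lemma natDegree_le_of_sum_sq {ι : Type*} [Fintype ι] (g : ι → ℝ[X]) {f : ℝ[X]} {D : ℕ}
    (hf : f = ∑ i, g i ^ 2) (hD : f.natDegree ≤ 2 * D) (i : ι) : (g i).natDegree ≤ D := by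
  by_contra hlt
  push Not at hlt
  -- the maximal degree
  obtain ⟨j, -, hj⟩ := Finset.exists_max_image Finset.univ (fun i => (g i).natDegree)
    ⟨i, Finset.mem_univ i⟩
  set M := (g j).natDegree with hM
  have hMi : (g i).natDegree ≤ M := hj i (Finset.mem_univ i)
  have hcoeff : f.coeff (2 * M) = ∑ l, (g l).coeff M ^ 2 := by
    rw [hf, finsetSum_coeff]
    apply Finset.sum_congr rfl
    intro l _
    exact coeff_pow_of_natDegree_le (hj l (Finset.mem_univ l))
  have hzero : f.coeff (2 * M) = 0 := by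
    apply coeff_eq_zero_of_natDegree_lt
    omega
  have hpos : 0 < ∑ l, (g l).coeff M ^ 2 := by
    apply Finset.sum_pos'
    · intro l _; positivity
    · refine ⟨j, Finset.mem_univ j, ?_⟩
      have : (g j).coeff M ≠ 0 := by
        rw [hM, coeff_natDegree]
        intro h
        have : g j = 0 := leadingCoeff_eq_zero.mp h
        rw [this, natDegree_zero] at hM
        omega
      positivity
  rw [← hcoeff, hzero] at hpos
  exact lt_irrefl _ hpos

end

end Pool.Agent.StubbornGap
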