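import Pool.Agent.StubbornGap.Affine

/-!
The rational quintic space curve with one pair of conjugate nodes, and its coordinate ring.
-/

namespace Pool.Agent.StubbornGap

open Polynomial

noncomputable section

/-- homogeneous forms scale -/
lemma aeval_smul_of_isHomogeneous {σ R S : Type*} [CommSemiring R] [CommSemiring S] [Algebra R S]
    {F : MvPolynomial σ R} {m : ℕ} (hF : F.IsHomogeneous m) (r : S) (p : σ → S) :
    MvPolynomial.aeval (fun i => r * p i) F = r ^ m * MvPolynomial.aeval p F := by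
  rw [MvPolynomial.aeval_def, MvPolynomial.aeval_def, MvPolynomial.eval₂_eq,
    MvPolynomial.eval₂_eq, Finset.mul_sum]
  apply Finset.sum_congr rfl
  intro d hd
  have hdeg : ∑ i ∈ d.support, d i = m := by
    have := hF.degree_eq_sum_deg_support hd
    exact this.symm
  simp only [mul_pow]
  rw [Finset.prod_mul_distrib, Finset.prod_pow_eq_pow_sum, hdeg]
  ring

/-- the two nodes: `i(1-s)` and `i(1+s)` -/
def pa (s : ℝ) : ℂ := ((1 - s : ℝ) : ℂ) * Complex.I
def pb (s : ℝ) : ℂ := ((1 + s : ℝ) : ℂ) * Complex.I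

lemma pa_im (s : ℝ) : (pa s).im = 1 - s := by simp [pa]
lemma pb_im (s : ℝ) : (pb s).im = 1 + s := by simp [pb]

def v0 (s : ℝ) : ℝ[X] := X ^ 2 + C (1 + s ^ 2)
def v1 (s : ℝ) : ℝ[X] := X ^ 3 + C (1 + 3 * s ^ 2) * X
def qq (s : ℝ) : ℝ[X] := (X ^ 2 + C ((1 - s) ^ 2)) * (X ^ 2 + C ((1 + s) ^ 2))

/-- parametrisation of the curve in `ℙ³` -/
def phi (s : ℝ) : Fin 4 → ℝ[X] := ![v0 s, v1 s, qq s, qq s * X]

/-- the ring of polynomials with equal values at the two points -/
def A0 (s : ℝ) (g : ℝ[X]) : Prop := aeval (pa s) g = aeval (pb s) g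

lemma I4 : Complex.I ^ 4 = 1 := Complex.I_pow_four
lemma I3 : Complex.I ^ 3 = -Complex.I := Complex.I_pow_three

lemma aeval_qq_a (s : ℝ) : aeval (pa s) (qq s) = 0 := by
  simp only [qq, pa, map_mul, map_add, map_pow, aeval_X, aeval_C, Complex.coe_algebraMap]
  push_cast
  ring_nf
  simp only [Complex.I_sq, I4]
  ring

lemma aeval_qq_b (s : ℝ) : aeval (pb s) (qq s) = 0 := by
  simp only [qq, pb, map_mul, map_add, map_pow, aeval_X, aeval_C, Complex.coe_algebraMap]
  push_cast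
  ring_nf
  simp only [Complex.I_sq, I4]
  ring

lemma v0_neg (s : ℝ) : aeval (pa s) (v0 s) = - aeval (pb s) (v0 s) := by
  simp only [v0, pa, pb, map_add, map_pow, aeval_X, aeval_C, Complex.coe_algebraMap]
  push_cast
  ring_nf
  simp only [Complex.I_sq]
  ring

lemma v1_neg (s : ℝ) : aeval (pa s) (v1 s) = - aeval (pb s) (v1 s) := by
  simp only [v1, pa, pb, map_add, map_mul, map_pow, aeval_X, aeval_C, Complex.coe_algebraMap]
  push_cast
  ring_nf
  simp only [I3]
  ring

lemma phi_neg (s : ℝ) (i : Fin 4) : aeval (pa s) (phi s i) = - aeval (pb s) (phi s i) := by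
  fin_cases i
  · exact v0_neg s
  · exact v1_neg s
  · change aeval (pa s) (qq s) = - aeval (pb s) (qq s)
    rw [aeval_qq_a, aeval_qq_b, neg_zero]
  · change aeval (pa s) (qq s * X) = - aeval (pb s) (qq s * X)
    rw [map_mul, map_mul, aeval_qq_a, aeval_qq_b, zero_mul, zero_mul, neg_zero]

lemma comp_aeval_phi (s : ℝ) {A : Type*} [CommSemiring A] [Algebra ℝ A] (x : A)
    (F : MvPolynomial (Fin 4) ℝ) : aeval x (MvPolynomial.aeval (phi s) F) =
      MvPolynomial.aeval (fun i => aeval x (phi s i)) F := by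
  have h : (aeval x : ℝ[X] →ₐ[ℝ] A).comp (MvPolynomial.aeval (phi s)) =
      MvPolynomial.aeval (fun i => aeval x (phi s i)) := by
    apply MvPolynomial.algHom_ext
    intro i
    simp
  exact DFunLike.congr_fun h F

/-- value of a form on the curve at the two nodes -/
lemma form_parity {s : ℝ} {F : MvPolynomial (Fin 4) ℝ} {m : ℕ} (hF : F.IsHomogeneous m) :
    aeval (pa s) (MvPolynomial.aeval (phi s) F) =
      (-1) ^ m * aeval (pb s) (MvPolynomial.aeval (phi s) F) := by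
  have h : ∀ x : ℂ, aeval x (MvPolynomial.aeval (phi s) F) =
      MvPolynomial.aeval (fun i => aeval x (phi s i)) F := fun x => comp_aeval_phi s x F
  rw [h, h, ← aeval_smul_of_isHomogeneous hF]
  congr 2
  funext i
  rw [phi_neg]
  ring

lemma form_natDegree {s : ℝ} {F : MvPolynomial (Fin 4) ℝ} {m : ℕ} (hF : F.IsHomogeneous m) :
    (MvPolynomial.aeval (phi s) F).natDegree ≤ 5 * m := by
  rw [MvPolynomial.aeval_def, MvPolynomial.eval₂_eq]
  apply natDegree_sum_le_of_forall_le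
  intro d hd
  have hdeg : ∑ i ∈ d.support, d i = m := by
    have := hF.degree_eq_sum_deg_support hd
    exact this.symm
  have hphi : ∀ i, (phi s i).natDegree ≤ 5 := by
    intro i
    fin_cases i
    · change (v0 s).natDegree ≤ 5
      unfold v0
      compute_degree!
    · change (v1 s).natDegree ≤ 5
      unfold v1
      compute_degree!
    · change (qq s).natDegree ≤ 5
      unfold qq
      compute_degree!
    · change (qq s * X).natDegree ≤ 5
      unfold qq
      compute_degree!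
  refine (natDegree_mul_le).trans ?_
  have h1 : ((algebraMap ℝ ℝ[X]) (MvPolynomial.coeff d F)).natDegree = 0 := by
    simp
  rw [h1, zero_add]
  refine (natDegree_prod_le _ _).trans ?_
  calc ∑ i ∈ d.support, ((phi s i) ^ d i).natDegree
      ≤ ∑ i ∈ d.support, d i * 5 := by
        apply Finset.sum_le_sum
        intro i _
        exact natDegree_pow_le_of_le _ (hphi i)
    _ = 5 * m := by rw [← Finset.sum_mul, hdeg]; ring

/-- image of the forms of degree `2m` -/
def W (s : ℝ) (m : ℕ) : Submodule ℝ ℝ[X] :=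
  (MvPolynomial.homogeneousSubmodule (Fin 4) ℝ (2 * m)).map
    (MvPolynomial.aeval (phi s)).toLinearMap

lemma mem_W {s : ℝ} {m : ℕ} {g : ℝ[X]} : g ∈ W s m ↔
    ∃ G : MvPolynomial (Fin 4) ℝ, G.IsHomogeneous (2 * m) ∧ MvPolynomial.aeval (phi s) G = g := by
  simp [W, Submodule.mem_map]

lemma mul_mem_W {s : ℝ} {m k : ℕ} {g h : ℝ[X]} (hg : g ∈ W s m) (hh : h ∈ W s k) :
    g * h ∈ W s (m + k) := by
  rw [mem_W] at *
  obtain ⟨G, hG, rfl⟩ := hg
  obtain ⟨H, hH, rfl⟩ := hh
  refine ⟨G * H, ?_, map_mul _ _ _⟩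
  have := hG.mul hH
  rwa [← mul_add] at this

lemma C_mul_mem_W {s : ℝ} {m : ℕ} {g : ℝ[X]} (c : ℝ) (hg : g ∈ W s m) : C c * g ∈ W s m := by
  rw [← smul_eq_C_mul]
  exact Submodule.smul_mem _ _ hg

lemma XX_mem (s : ℝ) (i j : Fin 4) : phi s i * phi s j ∈ W s 1 := by
  rw [mem_W]
  refine ⟨MvPolynomial.X i * MvPolynomial.X j, ?_, by simp⟩
  exact (MvPolynomial.isHomogeneous_X ℝ i).mul (MvPolynomial.isHomogeneous_X ℝ j)

lemma h00 (s : ℝ) : v0 s * v0 s ∈ W s 1 := XX_mem s 0 0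
lemma h01 (s : ℝ) : v0 s * v1 s ∈ W s 1 := XX_mem s 0 1
lemma h11 (s : ℝ) : v1 s * v1 s ∈ W s 1 := XX_mem s 1 1
lemma h02 (s : ℝ) : v0 s * qq s ∈ W s 1 := XX_mem s 0 2
lemma h03 (s : ℝ) : v0 s * (qq s * X) ∈ W s 1 := XX_mem s 0 3
lemma h12 (s : ℝ) : v1 s * qq s ∈ W s 1 := XX_mem s 1 2
lemma h22 (s : ℝ) : qq s * qq s ∈ W s 1 := XX_mem s 2 2
lemma h23 (s : ℝ) : qq s * (qq s * X) ∈ W s 1 := XX_mem s 2 3
lemma h33 (s : ℝ) : (qq s * X) * (qq s * X) ∈ W s 1 := XX_mem s 3 3

lemma of_C_mul_mem {s : ℝ} {m : ℕ} {g : ℝ[X]} {c : ℝ} (hc : c ≠ 0) (hg : C c * g ∈ W s m) :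
    g ∈ W s m := by
  have := C_mul_mem_W c⁻¹ hg
  rwa [← mul_assoc, ← C_mul, inv_mul_cancel₀ hc, C_1, one_mul] at this

lemma q0_mem {s : ℝ} (hs : s ≠ 0) : qq s ∈ W s 1 := by
  apply of_C_mul_mem (c := s ^ 2 * (1 + s ^ 2)) (by positivity)
  have e : C (s ^ 2 * (1 + s ^ 2)) * qq s =
      v1 s * v1 s + C ((1 - s ^ 2) ^ 2) * (v0 s * v0 s) - v0 s * qq s := by
    simp only [qq, v0, v1, C_add, C_mul, C_pow, C_sub, C_1, map_ofNat]
    ring
  rw [e]
  exact Submodule.sub_mem _ (Submodule.add_mem _ (h11 s) (C_mul_mem_W _ (h00 s))) (h02 s)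

lemma one_mem {s : ℝ} (hs : s ≠ 0) : (1 : ℝ[X]) ∈ W s 1 := by
  apply of_C_mul_mem (c := 4 * s ^ 2) (by positivity)
  have e : C (4 * s ^ 2) * (1 : ℝ[X]) = v0 s * v0 s - qq s := by
    simp only [qq, v0, C_add, C_mul, C_pow, C_sub, C_1, map_ofNat]
    ring
  rw [e]
  exact Submodule.sub_mem _ (h00 s) (q0_mem hs)

lemma q1_mem {s : ℝ} (hs : s ≠ 0) : qq s * X ∈ W s 1 := by
  apply of_C_mul_mem (c := 2 * s ^ 2) (by positivity)
  have e : C (2 * s ^ 2) * (qq s * X) = v1 s * qq s - v0 s * (qq s * X) := by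
    simp only [v0, v1, C_add, C_mul, C_pow, C_1, map_ofNat]
    ring
  rw [e]
  exact Submodule.sub_mem _ (h12 s) (h03 s)

/-- `X^3 + (3+s^2) X`, the odd cubic with equal values at the two points -/
def uu (s : ℝ) : ℝ[X] := X ^ 3 + C (3 + s ^ 2) * X

lemma u_mem {s : ℝ} (hs : s ≠ 0) : uu s ∈ W s 1 := by
  apply of_C_mul_mem (c := 2 * s ^ 2) (by positivity)
  have e : C (2 * s ^ 2) * uu s = v0 s * v1 s - qq s * X := by
    simp only [uu, qq, v0, v1, C_add, C_mul, C_pow, C_sub, C_1, map_ofNat]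
    ring
  rw [e]
  exact Submodule.sub_mem _ (h01 s) (q1_mem hs)

lemma q2_mem {s : ℝ} (hs : s ≠ 0) : qq s * X ^ 2 ∈ W s 1 := by
  have e : qq s * X ^ 2 = v0 s * qq s - C (1 + s ^ 2) * qq s := by
    simp only [v0, C_add, C_pow, C_1]
    ring
  rw [e]
  exact Submodule.sub_mem _ (h02 s) (C_mul_mem_W _ (q0_mem hs))

lemma q3_mem {s : ℝ} (hs : s ≠ 0) : qq s * X ^ 3 ∈ W s 1 := by
  have e : qq s * X ^ 3 = v0 s * (qq s * X) - C (1 + s ^ 2) * (qq s * X) := by
    simp only [v0, C_add, C_pow, C_1]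
    ring
  rw [e]
  exact Submodule.sub_mem _ (h03 s) (C_mul_mem_W _ (q1_mem hs))

lemma q4_mem {s : ℝ} (hs : s ≠ 0) : qq s * X ^ 4 ∈ W s 1 := by
  have e : qq s * X ^ 4 = qq s * qq s - C (2 * (1 + s ^ 2)) * (qq s * X ^ 2) -
      C ((1 - s ^ 2) ^ 2) * qq s := by
    simp only [qq, C_add, C_mul, C_pow, C_sub, C_1, map_ofNat]
    ring
  rw [e]
  exact Submodule.sub_mem _ (Submodule.sub_mem _ (h22 s) (C_mul_mem_W _ (q2_mem hs)))
    (C_mul_mem_W _ (q0_mem hs))

lemma q5_mem {s : ℝ} (hs : s ≠ 0) : qq s * X ^ 5 ∈ W s 1 := by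
  have e : qq s * X ^ 5 = qq s * (qq s * X) - C (2 * (1 + s ^ 2)) * (qq s * X ^ 3) -
      C ((1 - s ^ 2) ^ 2) * (qq s * X) := by
    simp only [qq, C_add, C_mul, C_pow, C_sub, C_1, map_ofNat]
    ring
  rw [e]
  exact Submodule.sub_mem _ (Submodule.sub_mem _ (h23 s) (C_mul_mem_W _ (q3_mem hs)))
    (C_mul_mem_W _ (q1_mem hs))

lemma q6_mem {s : ℝ} (hs : s ≠ 0) : qq s * X ^ 6 ∈ W s 1 := by
  have e : qq s * X ^ 6 = (qq s * X) * (qq s * X) - C (2 * (1 + s ^ 2)) * (qq s * X ^ 4) -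
      C ((1 - s ^ 2) ^ 2) * (qq s * X ^ 2) := by
    simp only [qq, C_add, C_mul, C_pow, C_sub, C_1, map_ofNat]
    ring
  rw [e]
  exact Submodule.sub_mem _ (Submodule.sub_mem _ (h33 s) (C_mul_mem_W _ (q4_mem hs)))
    (C_mul_mem_W _ (q2_mem hs))

lemma qX_mem {s : ℝ} (hs : s ≠ 0) {j : ℕ} (hj : j ≤ 6) : qq s * X ^ j ∈ W s 1 := by
  interval_cases j
  · simpa using q0_mem hs
  · simpa using q1_mem hs
  · exact q2_mem hs
  · exact q3_mem hs
  · exact q4_mem hs
  · exact q5_mem hs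
  · exact q6_mem hs

lemma A0_q_mul (s : ℝ) (g : ℝ[X]) : A0 s (qq s * g) := by
  simp only [A0, map_mul, aeval_qq_a, aeval_qq_b, zero_mul]

lemma A0_sub {s : ℝ} {g h : ℝ[X]} (hg : A0 s g) (hh : A0 s h) : A0 s (g - h) := by
  simp only [A0, map_sub] at *
  rw [hg, hh]

lemma A0_small {s : ℝ} (hs : s ≠ 0) {g : ℝ[X]} (hg : A0 s g) (hd : g.natDegree ≤ 3) :
    g = C (g.coeff 0) + C (g.coeff 3) * uu s := by
  have hsum : g = C (g.coeff 0) + C (g.coeff 1) * X + C (g.coeff 2) * X ^ 2 +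
      C (g.coeff 3) * X ^ 3 := by
    conv_lhs => rw [g.as_sum_range' 4 (by omega)]
    simp only [Finset.sum_range_succ, Finset.sum_range_zero, zero_add, ← C_mul_X_pow_eq_monomial,
      pow_zero, mul_one, pow_one]
  set c0 := g.coeff 0
  set c1 := g.coeff 1
  set c2 := g.coeff 2
  set c3 := g.coeff 3
  rw [hsum] at hg
  simp only [A0, pa, pb, map_add, map_mul, map_pow, aeval_X, aeval_C,
    Complex.coe_algebraMap] at hg
  have hre := congrArg Complex.re hg
  have him := congrArg Complex.im hg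
  have e1 : ∀ x : ℝ, (c0 : ℂ) + c1 * ((x : ℂ) * Complex.I) + c2 * ((x : ℂ) * Complex.I) ^ 2 +
      c3 * ((x : ℂ) * Complex.I) ^ 3 = ((c0 - c2 * x ^ 2 : ℝ) : ℂ) +
        ((c1 * x - c3 * x ^ 3 : ℝ) : ℂ) * Complex.I := by
    intro x
    push_cast
    ring_nf
    simp only [Complex.I_sq, I3]
    ring
  have e2 : ∀ x y : ℝ, ((x : ℂ) + (y : ℂ) * Complex.I).re = x := by intro x y; simp
  have e3 : ∀ x y : ℝ, ((x : ℂ) + (y : ℂ) * Complex.I).im = y := by intro x y; simp
  rw [e1, e1, e2, e2] at hre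
  rw [e1, e1, e3, e3] at him
  have hc2 : c2 = 0 := by
    have : c2 * (4 * s) = 0 := by nlinarith
    rcases mul_eq_zero.mp this with h | h
    · exact h
    · exfalso; apply hs; linarith
  have hc1 : c1 = (3 + s ^ 2) * c3 := by
    have : (2 * s) * (c1 - (3 + s ^ 2) * c3) = 0 := by nlinarith
    rcases mul_eq_zero.mp this with h | h
    · exfalso; apply hs; linarith
    · linarith
  rw [hsum, hc2, hc1]
  simp only [uu, C_mul, C_0]
  ring

lemma qq_monic (s : ℝ) : (qq s).Monic := by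
  unfold qq
  apply Monic.mul
  · exact monic_X_pow_add_C _ (by norm_num)
  · exact monic_X_pow_add_C _ (by norm_num)

lemma qq_natDegree (s : ℝ) : (qq s).natDegree = 4 := by
  unfold qq
  rw [Monic.natDegree_mul (monic_X_pow_add_C _ (by norm_num)) (monic_X_pow_add_C _ (by norm_num)),
    natDegree_X_pow_add_C, natDegree_X_pow_add_C]

/-- reduction step by a monic polynomial -/
lemma reduce {g r : ℝ[X]} {n : ℕ} (hg : g.natDegree ≤ n + 1) (hr : r.Monic)
    (hrn : r.natDegree = n + 1) : (g - C (g.coeff (n + 1)) * r).natDegree ≤ n := by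
  apply natDegree_le_iff_coeff_eq_zero.mpr
  intro N hN
  rcases Nat.lt_or_ge (n + 1) N with h | h
  · rw [coeff_sub, coeff_C_mul, coeff_eq_zero_of_natDegree_lt (by omega),
      coeff_eq_zero_of_natDegree_lt (p := r) (by omega)]
    ring
  · have : N = n + 1 := by omega
    rw [this, coeff_sub, coeff_C_mul]
    have h2 : r.coeff (n + 1) = 1 := by
      rw [← hrn]; exact hr.coeff_natDegree
    rw [h2]; ring

lemma base_mem {s : ℝ} (hs : s ≠ 0) : ∀ n : ℕ, n ≤ 10 → ∀ g : ℝ[X], A0 s g → g.natDegree ≤ n →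
    g ∈ W s 1 := by
  intro n
  induction n with
  | zero =>
    intro _ g hg hd
    rw [A0_small hs hg (by omega)]
    apply Submodule.add_mem
    · rw [← mul_one (C (g.coeff 0))]
      exact C_mul_mem_W _ (one_mem hs)
    · exact C_mul_mem_W _ (u_mem hs)
  | succ n ih =>
    intro hn g hg hd
    by_cases h3 : n + 1 ≤ 3
    · rw [A0_small hs hg (by omega)]
      apply Submodule.add_mem
      · rw [← mul_one (C (g.coeff 0))]
        exact C_mul_mem_W _ (one_mem hs)
      · exact C_mul_mem_W _ (u_mem hs)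
    · have hmon : (qq s * X ^ (n + 1 - 4)).Monic := (qq_monic s).mul (monic_X_pow _)
      have hdeg : (qq s * X ^ (n + 1 - 4)).natDegree = n + 1 := by
        rw [Monic.natDegree_mul (qq_monic s) (monic_X_pow _), qq_natDegree, natDegree_X_pow]
        omega
      have hred := reduce hd hmon hdeg
      have hA : A0 s (g - C (g.coeff (n + 1)) * (qq s * X ^ (n + 1 - 4))) := by
        apply A0_sub hg
        have := A0_q_mul s (C (g.coeff (n + 1)) * X ^ (n + 1 - 4))
        convert this using 1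
        ring
      have h1 := ih (by omega) _ hA hred
      have h2 := C_mul_mem_W (g.coeff (n + 1)) (qX_mem hs (j := n + 1 - 4) (by omega))
      have := Submodule.add_mem _ h1 h2
      simpa using this

/-- every polynomial with equal values at the two points, of degree at most `10m`, comes from
a form of degree `2m` -/
theorem surj {s : ℝ} (hs : s ≠ 0) : ∀ n : ℕ, ∀ m : ℕ, 1 ≤ m → n ≤ 10 * m → ∀ g : ℝ[X], A0 s g →
    g.natDegree ≤ n → g ∈ W s m := by
  have hone : ∀ m : ℕ, ∀ g : ℝ[X], g ∈ W s 1 → g ∈ W s (m + 1) := by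
    intro m
    induction m with
    | zero => intro g hg; simpa using hg
    | succ m ih =>
      intro g hg
      have := mul_mem_W (ih g hg) (one_mem hs)
      simpa using this
  intro n
  induction n using Nat.strong_induction_on with
  | _ n ih =>
    intro m hm hnm g hg hd
    by_cases h10 : n ≤ 10
    · obtain ⟨m', rfl⟩ : ∃ m', m = m' + 1 := ⟨m - 1, by omega⟩
      exact hone m' g (base_mem hs n h10 g hg hd)
    · push Not at h10
      obtain ⟨k, rfl⟩ : ∃ k, n = k + 1 := ⟨n - 1, by omega⟩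
      obtain ⟨m', rfl⟩ : ∃ m', m = m' + 1 := ⟨m - 1, by omega⟩
      -- split the exponent
      obtain ⟨i, j, hj, hij, hi⟩ : ∃ i j : ℕ, j ≤ 6 ∧ i + j + 8 = k + 1 ∧ i + 4 ≤ 10 * m' ∧ True := by
        by_cases h6 : k + 1 - 8 ≤ 6
        · exact ⟨0, k + 1 - 8, h6, by omega, by omega, trivial⟩
        · exact ⟨k + 1 - 14, 6, le_refl _, by omega, by omega, trivial⟩
      have hmem1 : qq s * X ^ i ∈ W s m' := by
        refine ih (i + 4) (by omega) m' (by omega) hi.1 _ (A0_q_mul s _) ?_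
        rw [Monic.natDegree_mul (qq_monic s) (monic_X_pow _), qq_natDegree, natDegree_X_pow]
        omega
      have hmem2 : qq s * X ^ j ∈ W s 1 := qX_mem hs hj
      have hmem := mul_mem_W hmem1 hmem2
      have hmon : ((qq s * X ^ i) * (qq s * X ^ j)).Monic :=
        ((qq_monic s).mul (monic_X_pow _)).mul ((qq_monic s).mul (monic_X_pow _))
      have hdeg : ((qq s * X ^ i) * (qq s * X ^ j)).natDegree = k + 1 := by
        rw [Monic.natDegree_mul ((qq_monic s).mul (monic_X_pow _))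
          ((qq_monic s).mul (monic_X_pow _)), Monic.natDegree_mul (qq_monic s) (monic_X_pow _),
          Monic.natDegree_mul (qq_monic s) (monic_X_pow _), qq_natDegree, natDegree_X_pow,
          natDegree_X_pow]
        omega
      have hred := reduce hd hmon hdeg
      have hA : A0 s (g - C (g.coeff (k + 1)) * ((qq s * X ^ i) * (qq s * X ^ j))) := by
        apply A0_sub hg
        have := A0_q_mul s (C (g.coeff (k + 1)) * X ^ i * (qq s * X ^ j))
        convert this using 1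
        ring
      have h1 := ih k (by omega) (m' + 1) (by omega) (by omega) _ hA hred
      have h2 := C_mul_mem_W (g.coeff (k + 1)) hmem
      have := Submodule.add_mem _ h1 h2
      simpa using this

end

end Pool.Agent.StubbornGap
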