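import Pool.Agent.StubbornGap.Poly

/-!
The key lemma: a nonnegative polynomial with a nonreal root taking the same value at two
points of the upper half plane has an odd power which is a sum of squares of
polynomials taking the same value at the two points.
-/

namespace Pool.Agent.StubbornGap

open Polynomial

noncomputable section

lemma exists_re_im (E : ℂ[X]) : ∃ E1 E2 : ℝ[X],
    E = E1.map (algebraMap ℝ ℂ) + C Complex.I * E2.map (algebraMap ℝ ℂ) := by
  induction E using Polynomial.induction_on' with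
  | add p q hp hq =>
    obtain ⟨p1, p2, hp⟩ := hp
    obtain ⟨q1, q2, hq⟩ := hq
    refine ⟨p1 + q1, p2 + q2, ?_⟩
    rw [hp, hq, Polynomial.map_add, Polynomial.map_add]
    ring
  | monomial n a =>
    refine ⟨monomial n a.re, monomial n a.im, ?_⟩
    rw [map_monomial, map_monomial, C_mul_monomial, ← map_add]
    congr 1
    simp only [Complex.coe_algebraMap]
    rw [mul_comm]
    exact (Complex.re_add_im a).symm

lemma eval_ofReal (E1 : ℝ[X]) (t : ℝ) : aeval (t : ℂ) E1 = ((E1.eval t : ℝ) : ℂ) := by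
  have := Polynomial.aeval_algebraMap_apply ℂ t E1
  simpa using this

/-- linear growth bound -/
lemma norm_sub_le_mul {z : ℂ} (hz : z.im ≠ 0) (p : ℂ) (t : ℝ) :
    ‖(t : ℂ) - p‖ ≤ (1 + ‖z - p‖ / |z.im|) * ‖(t : ℂ) - z‖ := by
  have h1 : |z.im| ≤ ‖(t : ℂ) - z‖ := by
    have := Complex.abs_im_le_norm ((t : ℂ) - z)
    simpa using this
  have h0 : 0 < |z.im| := abs_pos.mpr hz
  have h2 : ‖(t : ℂ) - p‖ ≤ ‖(t : ℂ) - z‖ + ‖z - p‖ := by
    have : (t : ℂ) - p = ((t : ℂ) - z) + (z - p) := by ring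
    rw [this]
    exact norm_add_le _ _
  have h3 : ‖z - p‖ ≤ ‖z - p‖ / |z.im| * ‖(t : ℂ) - z‖ := by
    rw [div_mul_eq_mul_div, le_div_iff₀ h0]
    exact mul_le_mul_of_nonneg_left h1 (norm_nonneg _)
  linarith

lemma norm_kappa_lt {z a : ℂ} (hz : z.im < 0) (ha : 0 < a.im) :
    ‖(a - (starRingEnd ℂ) z) / (a - z)‖ < 1 := by
  have hne : a - z ≠ 0 := by
    intro h
    have := congrArg Complex.im h
    simp at this
    linarith
  rw [norm_div, div_lt_one (norm_pos_iff.mpr hne)]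
  rw [← sq_lt_sq₀ (norm_nonneg _) (norm_nonneg _), ← Complex.normSq_eq_norm_sq,
    ← Complex.normSq_eq_norm_sq, Complex.normSq_apply, Complex.normSq_apply]
  simp only [Complex.sub_re, Complex.conj_re, Complex.sub_im, Complex.conj_im]
  nlinarith [mul_pos ha (neg_pos.mpr hz)]

/-- The interpolation lemma. -/
theorem key_interpolation {a b z : ℂ} (ha : 0 < a.im) (hb : 0 < b.im) (hab : a ≠ b)
    (hz : z.im < 0) {f f1 g1 g2 : ℝ[X]} (hf : f = quad z * f1) (hf1 : f1 = g1 ^ 2 + g2 ^ 2)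
    (hw : aeval a f = aeval b f) (hw0 : aeval a f ≠ 0) :
    ∃ (k : ℕ) (c : ℝ[X]), aeval a c = aeval b c ∧ (aeval a c) ^ 2 = (aeval a f) ^ (2 * k + 1) ∧
      ∀ t : ℝ, (c.eval t) ^ 2 ≤ 4 * (f.eval t) ^ (2 * k + 1) := by
  have hzim : z.im ≠ 0 := hz.ne
  set w := aeval a f with hwdef
  obtain ⟨η, hη⟩ : ∃ η : ℂ, η ^ 2 = w := by
    obtain ⟨η, hη⟩ := IsAlgClosed.exists_pow_nat_eq w (n := 2) (by norm_num)
    exact ⟨η, hη⟩
  set G1 : ℂ[X] := g1.map (algebraMap ℝ ℂ) + C Complex.I * g2.map (algebraMap ℝ ℂ) with hG1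
  have hG1eval : ∀ x : ℂ, G1.eval x = aeval x g1 + Complex.I * aeval x g2 := by
    intro x
    simp [hG1, eval_map_algebraMap]
  -- nonvanishing facts
  have haz : a - z ≠ 0 := by
    intro h
    have := congrArg Complex.im h
    simp at this
    linarith
  have hbz : b - z ≠ 0 := by
    intro h
    have := congrArg Complex.im h
    simp at this
    linarith
  have hfa : aeval a f = (a - z) * (a - (starRingEnd ℂ) z) * aeval a f1 := by
    rw [hf, map_mul, quad_aeval]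
  have hfb : aeval b f = (b - z) * (b - (starRingEnd ℂ) z) * aeval b f1 := by
    rw [hf, map_mul, quad_aeval]
  have hf1a : aeval a f1 ≠ 0 := by
    intro h
    rw [h, mul_zero] at hfa
    exact hw0 hfa
  have hf1b : aeval b f1 ≠ 0 := by
    intro h
    rw [h, mul_zero] at hfb
    exact hw0 (hw.trans hfb)
  have hG1a : G1.eval a ≠ 0 := by
    intro h
    apply hf1a
    have h2 : aeval a f1 = (aeval a g1 + Complex.I * aeval a g2) *
        (aeval a g1 - Complex.I * aeval a g2) := by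
      rw [hf1, map_add, map_pow, map_pow]
      ring_nf
      rw [Complex.I_sq]
      ring
    rw [h2, ← hG1eval, h, zero_mul]
  have hG1b : G1.eval b ≠ 0 := by
    intro h
    apply hf1b
    have h2 : aeval b f1 = (aeval b g1 + Complex.I * aeval b g2) *
        (aeval b g1 - Complex.I * aeval b g2) := by
      rw [hf1, map_add, map_pow, map_pow]
      ring_nf
      rw [Complex.I_sq]
      ring
    rw [h2, ← hG1eval, h, zero_mul]
  set ac := (starRingEnd ℂ) a with hac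
  set bc := (starRingEnd ℂ) b with hbc
  have h_a_ac : a - ac ≠ 0 := by
    intro h
    have := congrArg Complex.im h
    simp [hac] at this
    linarith
  have h_a_bc : a - bc ≠ 0 := by
    intro h
    have := congrArg Complex.im h
    simp [hbc] at this
    linarith
  have h_b_ac : b - ac ≠ 0 := by
    intro h
    have := congrArg Complex.im h
    simp [hac] at this
    linarith
  have h_b_bc : b - bc ≠ 0 := by
    intro h
    have := congrArg Complex.im h
    simp [hbc] at this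
    linarith
  have h_a_b : a - b ≠ 0 := sub_ne_zero.mpr hab
  have h_b_a : b - a ≠ 0 := sub_ne_zero.mpr hab.symm
  -- constants
  set κa : ℂ := (a - (starRingEnd ℂ) z) / (a - z) with hκa
  set κb : ℂ := (b - (starRingEnd ℂ) z) / (b - z) with hκb
  set ca : ℂ := 2 * η * (a - z) ^ 2 / (G1.eval a * ((a - ac) * (a - bc) * (a - b))) with hca
  set cb : ℂ := 2 * η * (b - z) ^ 2 / (G1.eval b * ((b - ac) * (b - bc) * (b - a))) with hcb
  set Mac := 1 + ‖z - ac‖ / |z.im|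
  set Mbc := 1 + ‖z - bc‖ / |z.im|
  set Ma := 1 + ‖z - a‖ / |z.im|
  set Mb := 1 + ‖z - b‖ / |z.im|
  -- choose `k`
  have hlim : Filter.Tendsto (fun k : ℕ => ‖ca‖ * ‖κa‖ ^ (k + 1) * (Mac * Mbc * Mb) +
      ‖cb‖ * ‖κb‖ ^ (k + 1) * (Mac * Mbc * Ma)) Filter.atTop (nhds 0) := by
    have h1 : Filter.Tendsto (fun k : ℕ => ‖κa‖ ^ (k + 1)) Filter.atTop (nhds 0) :=
      (tendsto_pow_atTop_nhds_zero_of_lt_one (norm_nonneg _) (norm_kappa_lt hz ha)).comp
        (Filter.tendsto_add_atTop_nat 1)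
    have h2 : Filter.Tendsto (fun k : ℕ => ‖κb‖ ^ (k + 1)) Filter.atTop (nhds 0) :=
      (tendsto_pow_atTop_nhds_zero_of_lt_one (norm_nonneg _) (norm_kappa_lt hz hb)).comp
        (Filter.tendsto_add_atTop_nat 1)
    have h3 := ((h1.const_mul ‖ca‖).mul_const (Mac * Mbc * Mb)).add
      ((h2.const_mul ‖cb‖).mul_const (Mac * Mbc * Ma))
    simpa using h3
  obtain ⟨k, hk⟩ : ∃ k : ℕ, ‖ca‖ * ‖κa‖ ^ (k + 1) * (Mac * Mbc * Mb) +
      ‖cb‖ * ‖κb‖ ^ (k + 1) * (Mac * Mbc * Ma) ≤ 2 := by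
    have := hlim.eventually (gt_mem_nhds (show (0 : ℝ) < 2 by norm_num))
    obtain ⟨k, hk⟩ := this.exists
    exact ⟨k, hk.le⟩
  set x : ℂ := ca * κa ^ (k + 1) with hx
  set y : ℂ := cb * κb ^ (k + 1) with hy
  set u : ℂ[X] := C x * ((X - C ac) * (X - C bc) * (X - C b)) +
    C y * ((X - C ac) * (X - C bc) * (X - C a)) with hu
  set E : ℂ[X] := (X - C z) ^ (2 * k) * (f1.map (algebraMap ℝ ℂ)) ^ (k + 1) * G1 * u with hE
  have hEeval : ∀ p : ℂ, E.eval p = (p - z) ^ (2 * k) * (aeval p f1) ^ (k + 1) * G1.eval p *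
      (x * ((p - ac) * (p - bc) * (p - b)) + y * ((p - ac) * (p - bc) * (p - a))) := by
    intro p
    simp [hE, hu, eval_map_algebraMap]
  obtain ⟨E1, E2, hE12⟩ := exists_re_im E
  have hE12eval : ∀ p : ℂ, E.eval p = aeval p E1 + Complex.I * aeval p E2 := by
    intro p
    rw [hE12]
    simp [eval_map_algebraMap]
  have hval : ∀ p : ℂ, E.eval ((starRingEnd ℂ) p) = 0 → aeval p E1 = E.eval p / 2 := by
    intro p hp
    rw [hE12eval, aeval_conj, aeval_conj] at hp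
    have h2 := congrArg (starRingEnd ℂ) hp
    simp only [map_add, map_mul, Complex.conj_conj, Complex.conj_I, map_zero] at h2
    rw [hE12eval]
    linear_combination (1 / 2 : ℂ) * h2
  have hEa : aeval a E1 = η * w ^ (k + 1) := by
    rw [hval a (by rw [hEeval, ← hac]; ring), hEeval]
    have e1 : κa ^ (k + 1) * (a - z) ^ (k + 1) = (a - (starRingEnd ℂ) z) ^ (k + 1) := by
      rw [hκa, ← mul_pow, div_mul_cancel₀ _ haz]
    have e2 : w ^ (k + 1) = (a - z) ^ (k + 1) * (κa ^ (k + 1) * (a - z) ^ (k + 1)) *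
        (aeval a f1) ^ (k + 1) := by
      rw [e1, ← mul_pow, ← mul_pow, hwdef, hfa]
    rw [e2, hx, hca]
    field_simp
    ring
  have hEb : aeval b E1 = η * w ^ (k + 1) := by
    rw [hval b (by rw [hEeval, ← hbc]; ring), hEeval]
    have e1 : κb ^ (k + 1) * (b - z) ^ (k + 1) = (b - (starRingEnd ℂ) z) ^ (k + 1) := by
      rw [hκb, ← mul_pow, div_mul_cancel₀ _ hbz]
    have e2 : w ^ (k + 1) = (b - z) ^ (k + 1) * (κb ^ (k + 1) * (b - z) ^ (k + 1)) *
        (aeval b f1) ^ (k + 1) := by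
      rw [e1, ← mul_pow, ← mul_pow, hw, hfb]
    rw [e2, hy, hcb]
    field_simp
    ring
  refine ⟨k + 1, E1, by rw [hEa, hEb], ?_, ?_⟩
  · rw [hEa, mul_pow, hη]
    ring
  · intro t
    have h1 : (E1.eval t) ^ 2 ≤ ‖E.eval (t : ℂ)‖ ^ 2 := by
      rw [hE12eval, eval_ofReal, eval_ofReal, ← Complex.normSq_eq_norm_sq, Complex.normSq_apply]
      simp
      nlinarith [sq_nonneg (E2.eval t)]
    have hD : ‖(t : ℂ) - z‖ ^ 2 = (quad z).eval t := (quad_eval z t).symm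
    have hG : ‖G1.eval (t : ℂ)‖ ^ 2 = f1.eval t := by
      rw [hG1eval, eval_ofReal, eval_ofReal, ← Complex.normSq_eq_norm_sq, Complex.normSq_apply,
        hf1]
      simp
      ring
    have hf1n : 0 ≤ f1.eval t := by rw [← hG]; positivity
    have hF : ‖aeval (t : ℂ) f1‖ = f1.eval t := by
      rw [eval_ofReal, Complex.norm_real, Real.norm_of_nonneg hf1n]
    set T := ‖(t : ℂ) - z‖ with hT
    have hT0 : 0 ≤ T := norm_nonneg _
    have bac : ‖(t : ℂ) - ac‖ ≤ Mac * T := norm_sub_le_mul hzim _ _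
    have bbc : ‖(t : ℂ) - bc‖ ≤ Mbc * T := norm_sub_le_mul hzim _ _
    have ba : ‖(t : ℂ) - a‖ ≤ Ma * T := norm_sub_le_mul hzim _ _
    have bb : ‖(t : ℂ) - b‖ ≤ Mb * T := norm_sub_le_mul hzim _ _
    have hu1 : ‖x * (((t : ℂ) - ac) * ((t : ℂ) - bc) * ((t : ℂ) - b)) +
        y * (((t : ℂ) - ac) * ((t : ℂ) - bc) * ((t : ℂ) - a))‖ ≤ 2 * T ^ 3 := by
      refine (norm_add_le _ _).trans ?_
      simp only [hx, hy, norm_mul, norm_pow]
      have i1 : ‖(t : ℂ) - ac‖ * ‖(t : ℂ) - bc‖ * ‖(t : ℂ) - b‖ ≤ (Mac * T) * (Mbc * T) * (Mb * T) := by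
        gcongr
      have i2 : ‖(t : ℂ) - ac‖ * ‖(t : ℂ) - bc‖ * ‖(t : ℂ) - a‖ ≤ (Mac * T) * (Mbc * T) * (Ma * T) := by
        gcongr
      calc ‖ca‖ * ‖κa‖ ^ (k + 1) * (‖(t : ℂ) - ac‖ * ‖(t : ℂ) - bc‖ * ‖(t : ℂ) - b‖) +
            ‖cb‖ * ‖κb‖ ^ (k + 1) * (‖(t : ℂ) - ac‖ * ‖(t : ℂ) - bc‖ * ‖(t : ℂ) - a‖)
          ≤ ‖ca‖ * ‖κa‖ ^ (k + 1) * ((Mac * T) * (Mbc * T) * (Mb * T)) +
            ‖cb‖ * ‖κb‖ ^ (k + 1) * ((Mac * T) * (Mbc * T) * (Ma * T)) := by
            gcongr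
        _ = (‖ca‖ * ‖κa‖ ^ (k + 1) * (Mac * Mbc * Mb) +
              ‖cb‖ * ‖κb‖ ^ (k + 1) * (Mac * Mbc * Ma)) * T ^ 3 := by ring
        _ ≤ 2 * T ^ 3 := by gcongr
    refine h1.trans ?_
    rw [hEeval, norm_mul, norm_mul, norm_mul, norm_pow, norm_pow, hF]
    set U := ‖x * (((t : ℂ) - ac) * ((t : ℂ) - bc) * ((t : ℂ) - b)) +
        y * (((t : ℂ) - ac) * ((t : ℂ) - bc) * ((t : ℂ) - a))‖ with hU
    have hU0 : 0 ≤ U := norm_nonneg _
    have hft : f.eval t = T ^ 2 * f1.eval t := by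
      rw [hf, eval_mul, hD]
    calc (T ^ (2 * k) * f1.eval t ^ (k + 1) * ‖G1.eval (t : ℂ)‖ * U) ^ 2
        = T ^ (4 * k) * f1.eval t ^ (2 * k + 2) * ‖G1.eval (t : ℂ)‖ ^ 2 * U ^ 2 := by ring
      _ ≤ T ^ (4 * k) * f1.eval t ^ (2 * k + 2) * ‖G1.eval (t : ℂ)‖ ^ 2 * (2 * T ^ 3) ^ 2 := by
          gcongr
      _ = 4 * (f.eval t) ^ (2 * (k + 1) + 1) := by
          rw [hG, hft]
          ring

end

end Pool.Agent.StubbornGap
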