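import Mathlib

/-!
Univariate real polynomials: nonnegative polynomials, sums of squares, and the key
interpolation lemma for the ring of polynomials taking the same value at two nonreal points.
-/

namespace Pool.Agent.StubbornGap

open Polynomial

noncomputable section

/-- nonnegative on the real line -/
def Psd (f : ℝ[X]) : Prop := ∀ t : ℝ, 0 ≤ f.eval t

lemma Psd.mul_left_cancel {g f : ℝ[X]} (hg : ∀ t, 0 < g.eval t) (h : Psd (g * f)) : Psd f := by
  intro t
  have := h t
  rw [eval_mul] at this
  exact nonneg_of_mul_nonneg_right this (hg t)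

lemma psd_real_root {f : ℝ[X]} (hf : Psd f) {r : ℝ} (hr : f.eval r = 0) :
    ∃ g : ℝ[X], f = (X - C r) ^ 2 * g ∧ Psd g := by
  obtain ⟨f1, h1⟩ : (X - C r) ∣ f := dvd_iff_isRoot.mpr hr
  have hmin : IsLocalMin (fun t => f.eval t) r := by
    refine Filter.Eventually.of_forall fun t => ?_
    simp only [hr]
    exact hf t
  have hd : f.derivative.eval r = 0 := by
    have := hmin.deriv_eq_zero
    rwa [Polynomial.deriv] at this
  have hf1 : f1.eval r = 0 := by
    rw [h1] at hd
    simpa [derivative_mul] using hd
  obtain ⟨g, hg⟩ : (X - C r) ∣ f1 := dvd_iff_isRoot.mpr hf1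
  have hfg : f = (X - C r) ^ 2 * g := by rw [h1, hg]; ring
  refine ⟨g, hfg, ?_⟩
  have hne : ∀ t, t ≠ r → 0 ≤ g.eval t := by
    intro t ht
    have h2 := hf t
    rw [hfg] at h2
    simp only [eval_mul, eval_pow, eval_sub, eval_X, eval_C] at h2
    have h3 : 0 < (t - r) ^ 2 := by
      have : t - r ≠ 0 := sub_ne_zero.mpr ht
      positivity
    exact nonneg_of_mul_nonneg_right h2 h3
  have hclosed : IsClosed {t : ℝ | 0 ≤ g.eval t} := isClosed_le continuous_const g.continuous
  have hdense : Dense ({r}ᶜ : Set ℝ) := dense_compl_singleton r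
  have hsub : closure ({r}ᶜ : Set ℝ) ⊆ {t : ℝ | 0 ≤ g.eval t} :=
    hclosed.closure_subset_iff.mpr fun t ht => hne t ht
  intro t
  exact hsub (by rw [hdense.closure_eq]; trivial)

/-- the real quadratic polynomial with roots `z` and its conjugate -/
def quad (z : ℂ) : ℝ[X] := (X - C z.re) ^ 2 + C (z.im ^ 2)

lemma quad_eval (z : ℂ) (t : ℝ) : (quad z).eval t = ‖(t : ℂ) - z‖ ^ 2 := by
  rw [← Complex.normSq_eq_norm_sq, Complex.normSq_apply]
  simp [quad]
  ring

lemma quad_eval_pos {z : ℂ} (hz : z.im ≠ 0) (t : ℝ) : 0 < (quad z).eval t := by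
  have : 0 < z.im ^ 2 := by positivity
  simp only [quad, eval_add, eval_pow, eval_sub, eval_X, eval_C]
  nlinarith [sq_nonneg (t - z.re)]

lemma quad_aeval (z x : ℂ) : aeval x (quad z) = (x - z) * (x - (starRingEnd ℂ) z) := by
  have h1 : z = z.re + z.im * Complex.I := (Complex.re_add_im z).symm
  have h2 : (starRingEnd ℂ) z = z.re - z.im * Complex.I := by
    apply Complex.ext <;> simp
  rw [h2]
  conv_rhs => rw [h1]
  simp only [quad, map_add, map_pow, map_sub, aeval_X, aeval_C, Complex.coe_algebraMap]
  simp only [Complex.add_re, Complex.ofReal_re, Complex.mul_re, Complex.I_re, mul_zero,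
    Complex.ofReal_im, Complex.I_im, mul_one, sub_self, add_zero, Complex.add_im, Complex.mul_im,
    zero_add]
  ring_nf
  simp only [Complex.I_sq]
  ring

lemma quad_dvd {f : ℝ[X]} {z : ℂ} (h : aeval z f = 0) (hz : z.im ≠ 0) : quad z ∣ f := by
  have := Polynomial.quadratic_dvd_of_aeval_eq_zero_im_ne_zero f h hz
  have e : quad z = X ^ 2 - C (2 * z.re) * X + C (‖z‖ ^ 2) := by
    rw [← Complex.normSq_eq_norm_sq, Complex.normSq_apply]
    simp only [quad, C_mul, C_add, C_pow, map_ofNat]
    ring
  rwa [e]

lemma quad_natDegree (z : ℂ) : (quad z).natDegree = 2 := by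
  unfold quad
  compute_degree!

lemma quad_ne_zero (z : ℂ) : quad z ≠ 0 := by
  intro h
  have := quad_natDegree z
  rw [h] at this
  simp at this

/-- A nonnegative real polynomial is a sum of two squares. -/
theorem psd_sum_two_sq (f : ℝ[X]) (hf : Psd f) : ∃ g1 g2 : ℝ[X], f = g1 ^ 2 + g2 ^ 2 := by
  induction hn : f.natDegree using Nat.strong_induction_on generalizing f with
  | _ n ih =>
    by_cases h0 : f = 0
    · exact ⟨0, 0, by simp [h0]⟩
    by_cases hdeg : f.natDegree = 0
    · obtain ⟨c, hc⟩ := natDegree_eq_zero.mp hdeg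
      have hc0 : 0 ≤ c := by
        have := hf 0
        rw [← hc] at this
        simpa using this
      refine ⟨C (Real.sqrt c), 0, ?_⟩
      rw [← hc, ← C_pow, Real.sq_sqrt hc0]
      simp
    · have hdeg' : (f.map (algebraMap ℝ ℂ)).degree ≠ 0 := by
        rw [degree_map]
        intro h
        exact hdeg (natDegree_eq_of_degree_eq_some h)
      obtain ⟨z, hz⟩ := IsAlgClosed.exists_root _ hdeg'
      have hz' : aeval z f = 0 := by
        rw [IsRoot, eval_map_algebraMap] at hz
        exact hz
      by_cases him : z.im = 0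
      · have hzr : z = (z.re : ℂ) := by
          apply Complex.ext <;> simp [him]
        have hr : f.eval z.re = 0 := by
          rw [hzr] at hz'
          have h2 : aeval ((z.re : ℂ)) f = ((f.eval z.re : ℝ) : ℂ) := by
            have := Polynomial.aeval_algebraMap_apply ℂ z.re f
            simpa using this
          rw [h2] at hz'
          exact_mod_cast hz'
        obtain ⟨g, hg, hgp⟩ := psd_real_root hf hr
        have hg0 : g ≠ 0 := by
          rintro rfl
          exact h0 (by simpa using hg)
        have hlt : g.natDegree < n := by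
          rw [← hn, hg, natDegree_mul (pow_ne_zero _ (X_sub_C_ne_zero _)) hg0, natDegree_pow,
            natDegree_X_sub_C]
          omega
        obtain ⟨g1, g2, hgg⟩ := ih _ hlt g hgp rfl
        exact ⟨(X - C z.re) * g1, (X - C z.re) * g2, by rw [hg, hgg]; ring⟩
      · obtain ⟨g, hg⟩ := quad_dvd hz' him
        have hgp : Psd g := by
          rw [hg] at hf
          exact Psd.mul_left_cancel (quad_eval_pos him) hf
        have hg0 : g ≠ 0 := by
          rintro rfl
          exact h0 (by simpa using hg)
        have hlt : g.natDegree < n := by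
          rw [← hn, hg, natDegree_mul (quad_ne_zero z) hg0, quad_natDegree]
          omega
        obtain ⟨g1, g2, hgg⟩ := ih _ hlt g hgp rfl
        refine ⟨(X - C z.re) * g1 - C z.im * g2, (X - C z.re) * g2 + C z.im * g1, ?_⟩
        rw [hg, hgg, quad, C_pow]
        ring

/-- A nonnegative real polynomial without nonreal roots is the square of a real-rooted one. -/
theorem psd_real_rooted (f : ℝ[X]) (hf : Psd f) (h0 : f ≠ 0)
    (hreal : ∀ z : ℂ, aeval z f = 0 → z.im = 0) :
    ∃ (c : ℝ) (S : Multiset ℝ), c ≠ 0 ∧ f = (C c * (S.map fun r => X - C r).prod) ^ 2 := by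
  induction hn : f.natDegree using Nat.strong_induction_on generalizing f with
  | _ n ih =>
    by_cases hdeg : f.natDegree = 0
    · obtain ⟨c, hc⟩ := natDegree_eq_zero.mp hdeg
      have hc0 : 0 ≤ c := by
        have := hf 0
        rw [← hc] at this
        simpa using this
      have hc1 : c ≠ 0 := by
        rintro rfl
        exact h0 (by simpa using hc.symm)
      refine ⟨Real.sqrt c, 0, ?_, ?_⟩
      · exact (Real.sqrt_pos.mpr (lt_of_le_of_ne hc0 (Ne.symm hc1))).ne'
      · simp only [Multiset.map_zero, Multiset.prod_zero, mul_one]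
        rw [← hc, ← C_pow, Real.sq_sqrt hc0]
    · have hdeg' : (f.map (algebraMap ℝ ℂ)).degree ≠ 0 := by
        rw [degree_map]
        intro h
        exact hdeg (natDegree_eq_of_degree_eq_some h)
      obtain ⟨z, hz⟩ := IsAlgClosed.exists_root _ hdeg'
      have hz' : aeval z f = 0 := by
        rw [IsRoot, eval_map_algebraMap] at hz
        exact hz
      have him := hreal z hz'
      have hzr : z = (z.re : ℂ) := by
        apply Complex.ext <;> simp [him]
      have hr : f.eval z.re = 0 := by
        rw [hzr] at hz'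
        have h2 : aeval ((z.re : ℂ)) f = ((f.eval z.re : ℝ) : ℂ) := by
          have := Polynomial.aeval_algebraMap_apply ℂ z.re f
          simpa using this
        rw [h2] at hz'
        exact_mod_cast hz'
      obtain ⟨g, hg, hgp⟩ := psd_real_root hf hr
      have hg0 : g ≠ 0 := by
        rintro rfl
        exact h0 (by simpa using hg)
      have hlt : g.natDegree < n := by
        rw [← hn, hg, natDegree_mul (pow_ne_zero _ (X_sub_C_ne_zero _)) hg0, natDegree_pow,
          natDegree_X_sub_C]
        omega
      have hgreal : ∀ z : ℂ, aeval z g = 0 → z.im = 0 := by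
        intro x hx
        apply hreal
        rw [hg, map_mul, hx, mul_zero]
      obtain ⟨c, S, hc, hS⟩ := ih _ hlt g hgp hg0 hgreal rfl
      refine ⟨c, z.re ::ₘ S, hc, ?_⟩
      rw [hg, hS, Multiset.map_cons, Multiset.prod_cons]
      ring

end

end Pool.Agent.StubbornGap
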